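import Pool.Agent.Q275.Cheb.TwoPrimes
import Pool.Agent.Q275.Cheb.EvenExample

/-!
# Maximal Chebyshev hyperelliptic curves in characteristic one modulo four

If `d ≥ 3` is odd, `p` is a prime congruent to `1` modulo `4`, and the curve `y ^ 2 = φ_d(x)` is
maximal over some finite field of characteristic `p`, then `d` is a power of a prime congruent to
`1` modulo `4`. The second part shows that the restriction to odd `d` is needed.
-/

set_option autoImplicit false

namespace Pool.Agent.Results.MP_b95a42_nt.PrimePowers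

open Pool.Agent.Q275.Cheb

theorem result :
    (∀ d p : ℕ, 3 ≤ d → Odd d → p.Prime → p % 4 = 1 → MaximalInChar d p →
      ∃ ℓ n : ℕ, ℓ.Prime ∧ ℓ % 4 = 1 ∧ 1 ≤ n ∧ d = ℓ ^ n) ∧ MaximalInChar 4 5 := by
  refine ⟨?_, maximal_four⟩
  intro d p hd3 hd hp hp4 hmax
  exact prime_power_of_bal hp4 hd hd3 (bal_of_maximalInChar hp hp4 hd hd3 hmax)

end Pool.Agent.Results.MP_b95a42_nt.PrimePowers
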